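import Pool.Agent.Helper29.OT.St

/-!
# OT module CJ (helper12): few clearly negative elements

Statement: `Pool.Agent.Helper29.OT.StCJ` (helper29).
-/

set_option autoImplicit false

namespace Pool.Agent.Helper12.OT

open Finset Pool.Agent.Helper14.FEM Pool.Agent.Helper3.EMK Pool.Agent.Helper29.TK
  Pool.Agent.Helper29.OT

theorem CJ_choose (k m : ℕ) (hk : 1 ≤ k) (hm : 1 ≤ m) :
    ((k * m).choose k : ℝ) = m * ((k * m - 1).choose (k - 1) : ℝ) := by
  obtain ⟨k', rfl⟩ : ∃ k', k = k' + 1 := ⟨k - 1, by omega⟩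
  have hpos : 1 ≤ (k' + 1) * m := Nat.mul_pos (by omega) hm
  obtain ⟨n, hn⟩ : ∃ n, (k' + 1) * m = n + 1 := ⟨(k' + 1) * m - 1, by omega⟩
  have h1 := Nat.add_one_mul_choose_eq n k'
  rw [hn, Nat.add_sub_cancel, Nat.add_sub_cancel]
  have h2 : ((n : ℝ) + 1) * (n.choose k' : ℝ) = ((n + 1).choose (k' + 1) : ℝ) * ((k' : ℝ) + 1) := by
    exact_mod_cast h1
  have h3 : ((k' : ℝ) + 1) * m = (n : ℝ) + 1 := by exact_mod_cast hn
  have h4 : (0 : ℝ) < (k' : ℝ) + 1 := by positivity
  apply mul_right_cancel₀ (ne_of_gt h4)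
  rw [← h2, ← h3]
  ring

/-- sets with all weights below `1/k` are light -/
theorem CJ_light {V : Type} [DecidableEq V] (k : ℕ) (hk : 1 ≤ k) (W : Finset V) (x : V → ℝ)
    (h : ∀ i ∈ W, x i < 1 / (k : ℝ)) : cnt W x k 1 = 0 := by
  unfold cnt
  rw [Finset.card_eq_zero, Finset.filter_eq_empty_iff]
  intro e he hcon
  rw [Finset.mem_powersetCard] at he
  have hne : e.Nonempty := by
    rw [← Finset.card_pos, he.2]; omega
  have h1 : ∑ i ∈ e, x i < ∑ i ∈ e, 1 / (k : ℝ) :=
    Finset.sum_lt_sum_of_nonempty hne fun i hi => h i (he.1 hi)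
  rw [Finset.sum_const, he.2, nsmul_eq_mul] at h1
  have hk0 : (k : ℝ) ≠ 0 := by positivity
  have h2 : (k : ℝ) * (1 / (k : ℝ)) = 1 := by field_simp
  linarith

/-- shifting the weights -/
theorem CJ_shift {V : Type} [DecidableEq V] (k : ℕ) (hk : 1 ≤ k) (W : Finset V) (x : V → ℝ) :
    cnt W x k 1 = cnt W (fun i => x i - (1 - 1 / (k : ℝ)) / k) k (1 / (k : ℝ)) := by
  unfold cnt
  congr 1
  apply Finset.filter_congr
  intro e he
  rw [Finset.mem_powersetCard] at he
  rw [Finset.sum_sub_distrib, Finset.sum_const, he.2, nsmul_eq_mul]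
  have hk0 : (k : ℝ) ≠ 0 := by positivity
  have h2 : (k : ℝ) * ((1 - 1 / (k : ℝ)) / k) = 1 - 1 / (k : ℝ) := by field_simp
  rw [h2]
  constructor <;> intro h <;> linarith

theorem CJ_n1 {k K s : ℝ} (hk : 2 ≤ k) (hK : 1 ≤ K) (hs : 40 * k ^ 2 * K ≤ s) :
    80 * (k * K) ≤ s ∧ 160 * K ≤ s := by
  have h1 : 2 * k ≤ k ^ 2 := by nlinarith
  have h2 : 2 * k * K ≤ k ^ 2 * K := mul_le_mul_of_nonneg_right h1 (by linarith)
  have h3 : 2 * K ≤ k * K := mul_le_mul_of_nonneg_right hk (by linarith)
  constructor <;> linarith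

theorem CJ_n2 {j K s : ℝ} (hjK : j ≤ K) (hK : 1 ≤ K) (hs : 160 * K ≤ s) :
    j / (s - 1) ≤ 2 * K / s := by
  rw [div_le_div_iff₀ (by linarith) (by linarith)]
  have h1 : j * s ≤ K * s := mul_le_mul_of_nonneg_right hjK (by linarith)
  have h2 : K * s ≤ K * (2 * (s - 1)) := mul_le_mul_of_nonneg_left (by linarith) (by linarith)
  linarith

theorem CJ_n3 {a b : ℝ} (hb : b ≤ a) (ha : 0 ≤ a) (hb0 : 0 ≤ b) :
    1 - 3 * a ≤ (1 - a) * (1 - b) := by
  have h1 : 0 ≤ a * b := mul_nonneg ha hb0
  have h2 : (1 - a) * (1 - b) = 1 - a - b + a * b := by ring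
  rw [h2]; linarith

/-- Module CJ. -/
theorem hCJ (hBE : StBE) (hLC : StLC) (hMK : StMK) : StCJ := by
  classical
  intro V _ k s j hk A U x K hx hA hsum hK hj hjK hs hU hUc R hRA hRc hR1 hRd
  have hk' : (2 : ℝ) ≤ k := by exact_mod_cast hk
  have hk0 : (0 : ℝ) < k := by linarith
  have hj' : (1 : ℝ) ≤ j := by exact_mod_cast hj
  have hK1 : 1 ≤ K := by linarith
  obtain ⟨hskK, hs160⟩ := CJ_n1 hk' hK1 hs
  have hskjR : 80 * ((k : ℝ) * j) ≤ s := by
    have h1 : (k : ℝ) * j ≤ (k : ℝ) * K := mul_le_mul_of_nonneg_left hjK hk0.le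
    linarith only [h1, hskK]
  have hskj : 80 * (k * j) ≤ s := by exact_mod_cast hskjR
  have hs160j : 160 * j ≤ s := by
    have h1 : 160 * (j : ℝ) ≤ s := by linarith only [hjK, hs160]
    exact_mod_cast h1
  have hs2 : 2 ≤ s := by omega
  have hsR : (160 : ℝ) ≤ s := by linarith only [hs160, hK1]
  have hs0 : (0 : ℝ) < s := by linarith only [hsR]
  have hs1 : (0 : ℝ) < (s : ℝ) - 1 := by linarith only [hsR]
  have hks : s ≤ k * s := Nat.le_mul_of_pos_left s (by omega)
  set E : ℝ := ((k * s - 1).choose (k - 1) : ℝ) with hEdef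
  have hE0 : 0 ≤ E := Nat.cast_nonneg _
  have hBEk := hBE.1 k s (k * j) hk hs2 (by omega)
  have hBEj := hBE.1 k s j hk hs2 (by omega)
  rw [← hEdef] at hBEk hBEj
  push_cast at hBEk
  -- the fractions
  have hfr : (j : ℝ) / (s - 1) ≤ 2 * K / s := CJ_n2 hjK hK1 hs160
  have hfr0 : 0 ≤ (j : ℝ) / (s - 1) := by positivity
  have hfrk : (k : ℝ) * j / (s - 1) ≤ 2 * k * K / s := by
    have h1 : (k : ℝ) * j / (s - 1) = k * (j / (s - 1)) := by ring
    have h2 : 2 * (k : ℝ) * K / s = k * (2 * K / s) := by ring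
    rw [h1, h2]
    exact mul_le_mul_of_nonneg_left hfr hk0.le
  have hKs : 0 ≤ k * K / s := by positivity
  have hKs1 : k * K / s ≤ 1 / 80 := by
    rw [div_le_div_iff₀ hs0 (by norm_num)]
    linarith only [hskK]
  have h3K : 3 * (k : ℝ) * K / s = 3 * (k * K / s) := by ring
  have h2K : 2 * (k : ℝ) * K / s = 2 * (k * K / s) := by ring
  have hKs2 : 2 * K / s ≤ k * K / s := by
    apply div_le_div_of_nonneg_right _ hs0.le
    exact mul_le_mul_of_nonneg_right hk' (by linarith only [hK1])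
  rw [h3K]
  rw [h2K] at hfrk
  -- the number of `k`-sets of a set of size `k (s - j)`
  have hsj : 1 ≤ s - j := by omega
  have hcsj : ((s - j : ℕ) : ℝ) = (s : ℝ) - j := by
    rw [Nat.cast_sub (by omega)]
  have hmul : k * (s - j) = k * s - k * j := Nat.mul_sub k s j
  have hch := CJ_choose k (s - j) (by omega) hsj
  have hidx : k * (s - j) - 1 = k * s - 1 - k * j := by omega
  rw [hidx, hcsj] at hch
  set E' : ℝ := ((k * s - 1 - k * j).choose (k - 1) : ℝ) with hE'
  have hE'low : (1 - 2 * (k * K / s)) * E ≤ E' := by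
    refine le_trans ?_ hBEk
    apply mul_le_mul_of_nonneg_right _ hE0
    linarith only [hfrk]
  have hE'0 : 0 ≤ E' := Nat.cast_nonneg _
  set H : Finset V := A.filter (fun i => 1 / (k : ℝ) ≤ x i) with hH
  by_cases hHc : #H < k * j
  · -- case (a)
    have h1 := hLC V k (by omega) A ∅ (A \ H) (A \ H) x (empty_subset _) sdiff_subset
      (disjoint_empty_left _) (Subset.refl _)
    rw [Finset.sum_empty, add_zero, CJ_light k (by omega) (A \ H) x (by
      intro i hi
      rw [Finset.mem_sdiff] at hi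
      by_contra hcon
      exact hi.2 (by rw [hH, Finset.mem_filter]; exact ⟨hi.1, not_lt.1 hcon⟩)), hA] at h1
    have h2 : k * (s - j) ≤ #(A \ H) := by
      have := Finset.le_card_sdiff H A
      omega
    have h3 : ((k * (s - j)).choose k : ℝ) ≤ ((#(A \ H)).choose k : ℝ) := by
      exact_mod_cast Nat.choose_le_choose k h2
    rw [hch] at h3
    have h4 : ((s : ℝ) - j) * E' ≥ ((s : ℝ) - j) * ((1 - 2 * (k * K / s)) * E) :=
      mul_le_mul_of_nonneg_left hE'low (by linarith only [hjK, hs160, hK1])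
    have h5 : ((j : ℝ) + 1) * (1 - 3 * (k * K / s)) ≤ ((s : ℝ) - j) * (1 - 2 * (k * K / s)) := by
      have h6 : ((j : ℝ) + 1) * (1 - 3 * (k * K / s)) ≤ ((j : ℝ) + 1) * 1 :=
        mul_le_mul_of_nonneg_left (by linarith only [hKs]) (by linarith only [hj'])
      have h7 : ((s : ℝ) - j) * (1 / 2) ≤ ((s : ℝ) - j) * (1 - 2 * (k * K / s)) :=
        mul_le_mul_of_nonneg_left (by linarith only [hKs1]) (by linarith only [hjK, hs160, hK1])
      linarith only [h6, h7, hjK, hs160, hK1, hj']
    have h6 : ((j : ℝ) + 1) * (1 - 3 * (k * K / s)) * E ≤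
        ((s : ℝ) - j) * (1 - 2 * (k * K / s)) * E := mul_le_mul_of_nonneg_right h5 hE0
    push_cast at h1
    linarith only [h1, h3, h4, h6]
  · -- case (b)
    push Not at hHc
    have hUA : U ⊆ A := fun i hi => ((hU i).1 hi).1
    have hkk : (1 - 1 / (k : ℝ)) / k < 1 / (k : ℝ) := by
      apply div_lt_div_of_pos_right _ hk0
      have : 0 < 1 / (k : ℝ) := by positivity
      linarith only [this]
    have hxU : ∀ i ∈ U, k * x i - 1 ≤ 0 := by
      intro i hi
      have h1 := ((hU i).1 hi).2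
      have h2 : x i ≤ 1 / (k : ℝ) := by linarith only [h1, hkk]
      rw [le_div_iff₀ hk0] at h2
      linarith only [h2]
    have hHU : Disjoint H U := by
      rw [Finset.disjoint_left]
      intro i hi hi2
      rw [hH, Finset.mem_filter] at hi
      have h1 := ((hU i).1 hi2).2
      linarith only [hi.2, h1, hkk]
    set X : Finset V := Finset.univ.biUnion (fun i : Fin j => R i \ U) with hX
    have hXU : Disjoint U X := by
      rw [Finset.disjoint_left]
      intro i hi hi2
      rw [hX, Finset.mem_biUnion] at hi2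
      obtain ⟨l, _, hl⟩ := hi2
      exact (Finset.mem_sdiff.1 hl).2 hi
    have hXA : X ⊆ A := by
      intro i hi
      rw [hX, Finset.mem_biUnion] at hi
      obtain ⟨l, _, hl⟩ := hi
      exact hRA l (Finset.mem_sdiff.1 hl).1
    have hXc : #X ≤ j * (k - 1) := by
      calc #X ≤ ∑ i : Fin j, #(R i \ U) := Finset.card_biUnion_le
        _ ≤ ∑ i : Fin j, (k - 1) := by
            apply Finset.sum_le_sum
            intro i _
            rw [← hRc i]
            exact Finset.card_le_card sdiff_subset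
        _ = j * (k - 1) := by rw [Finset.sum_const, Finset.card_univ, Fintype.card_fin]; rfl
    have hXsum : (j : ℝ) + #X ≤ k * ∑ i ∈ X, x i := by
      have h1 : ∑ l ∈ X, (k * x l - 1) = ∑ i : Fin j, ∑ l ∈ R i \ U, (k * x l - 1) := by
        rw [hX]
        apply Finset.sum_biUnion
        intro a _ b _ hab
        exact (hRd a b hab).mono sdiff_subset sdiff_subset
      have h2 : ∀ i : Fin j, (1 : ℝ) ≤ ∑ l ∈ R i \ U, (k * x l - 1) := by
        intro i
        have h3 : ∑ l ∈ R i ∩ U, (k * x l - 1) + ∑ l ∈ R i \ U, (k * x l - 1) =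
            ∑ l ∈ R i, (k * x l - 1) := Finset.sum_inter_add_sum_sdiff (R i) U _
        have h4 : ∑ l ∈ R i ∩ U, (k * x l - 1) ≤ 0 := by
          apply Finset.sum_nonpos
          intro l hl
          exact hxU l (Finset.mem_inter.1 hl).2
        have h5 : ∑ l ∈ R i, (k * x l - 1) = k * ∑ l ∈ R i, x l - (k - 1) := by
          rw [Finset.sum_sub_distrib, ← Finset.mul_sum, Finset.sum_const, hRc i, nsmul_eq_mul,
            mul_one, Nat.cast_sub (by omega), Nat.cast_one]
        have h6 : (k : ℝ) * 1 ≤ k * ∑ l ∈ R i, x l := mul_le_mul_of_nonneg_left (hR1 i) hk0.le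
        linarith only [h3, h4, h5, h6]
      have h3 : (j : ℝ) ≤ ∑ l ∈ X, (k * x l - 1) := by
        rw [h1]
        calc (j : ℝ) = ∑ i : Fin j, (1 : ℝ) := by simp
          _ ≤ _ := Finset.sum_le_sum fun i _ => h2 i
      rw [Finset.sum_sub_distrib, ← Finset.mul_sum, Finset.sum_const, nsmul_eq_mul, mul_one] at h3
      linarith only [h3]
    have hjk : j * (k - 1) + j = k * j := by
      obtain ⟨k', rfl⟩ : ∃ k', k = k' + 1 := ⟨k - 1, by omega⟩
      rw [Nat.add_sub_cancel]; ring
    obtain ⟨D, hDs, hDc⟩ : ∃ D ⊆ H \ X, #D = k * j - #U - #X := by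
      apply Finset.exists_subset_card_eq
      have := Finset.le_card_sdiff X H
      omega
    have hDH : D ⊆ H := hDs.trans sdiff_subset
    have hDA : D ⊆ A := hDH.trans (Finset.filter_subset _ _)
    have hDX : Disjoint D X := by
      rw [Finset.disjoint_left]
      intro i hi
      exact (Finset.mem_sdiff.1 (hDs hi)).2
    have hDU : Disjoint D U := hHU.mono_left hDH
    have hdis2 : Disjoint (U ∪ X) D := by
      rw [Finset.disjoint_union_left]
      exact ⟨hDU.symm, hDX.symm⟩
    set T : Finset V := U ∪ X ∪ D with hT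
    have hTA : T ⊆ A := Finset.union_subset (Finset.union_subset hUA hXA) hDA
    have hTc : #T = k * j := by
      rw [hT, Finset.card_union_of_disjoint hdis2, Finset.card_union_of_disjoint hXU]
      omega
    set A2 : Finset V := A \ T with hA2
    have hA2c : #A2 = k * (s - j) := by
      rw [hA2, Finset.card_sdiff_of_subset hTA, hTc, hA, hmul]
    have hsumA : ∑ i ∈ A2, x i + (∑ i ∈ U, x i + ∑ i ∈ X, x i + ∑ i ∈ D, x i) =
        ∑ i ∈ A, x i := by
      rw [← Finset.sum_sdiff hTA, hT, Finset.sum_union hdis2, Finset.sum_union hXU]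
    have hsumU : 0 ≤ ∑ i ∈ U, x i := Finset.sum_nonneg fun i _ => hx i
    have hsumD : (#D : ℝ) ≤ k * ∑ i ∈ D, x i := by
      rw [Finset.mul_sum]
      calc (#D : ℝ) = ∑ i ∈ D, (1 : ℝ) := by simp
        _ ≤ _ := by
          apply Finset.sum_le_sum
          intro i hi
          have h1 := (Finset.mem_filter.1 (hDH hi)).2
          rw [div_le_iff₀ hk0] at h1
          linarith only [h1]
    have hDcR : (#D : ℝ) = k * j - #U - #X := by
      have h1 : #D + (#U + #X) = k * j := by omega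
      have h2 : (#D : ℝ) + (#U + #X) = k * j := by exact_mod_cast h1
      linarith only [h2]
    have hsumA2 : k * ∑ i ∈ A2, x i < k * s - k * j - j + #U := by
      have h1 : k * ∑ i ∈ A, x i < k * s := mul_lt_mul_of_pos_left hsum hk0
      have h2 : 0 ≤ k * ∑ i ∈ U, x i := mul_nonneg hk0.le hsumU
      have h3 : (k : ℝ) * (∑ i ∈ A2, x i + (∑ i ∈ U, x i + ∑ i ∈ X, x i + ∑ i ∈ D, x i)) =
        k * ∑ i ∈ A, x i := by rw [hsumA]
      rw [mul_add, mul_add, mul_add] at h3
      linarith only [h1, h2, h3, hXsum, hsumD, hDcR]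
    have hUj : (#U : ℝ) ≤ j := by exact_mod_cast hUc
    -- the shifted weights
    have hcb := cnt_blocks A2 (fun i => x i - (1 - 1 / (k : ℝ)) / k) (by
        intro i hi
        rw [hA2, Finset.mem_sdiff] at hi
        have h1 : i ∉ U := fun h => hi.2 (by
          rw [hT]; exact Finset.mem_union_left _ (Finset.mem_union_left _ h))
        have h2 : ¬ x i ≤ (1 - 1 / (k : ℝ)) / k := fun h => h1 ((hU i).2 ⟨hi.1, h⟩)
        show 0 ≤ x i - (1 - 1 / (k : ℝ)) / k
        exact sub_nonneg.2 (not_le.1 h2).le) k (s - j) (by omega) (by rw [hA2c, Nat.mul_comm])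
      (Finset.range (s - 2 * j + #U)) (by rw [Finset.card_range]; omega)
      (fun _ => 1 / (k : ℝ)) (1 / (k : ℝ)) (by positivity) (fun _ _ => le_rfl) (by
        rw [Finset.sum_sub_distrib, Finset.sum_const, Finset.sum_const, Finset.card_range, hA2c,
          nsmul_eq_mul, nsmul_eq_mul]
        have h1 : ((s - 2 * j + #U : ℕ) : ℝ) = s - 2 * j + #U := by
          rw [Nat.cast_add, Nat.cast_sub (by omega)]; push_cast; ring
        rw [h1, Nat.cast_mul, hcsj]
        have h2 : ∑ i ∈ A2, x i < (k * s - k * j - j + #U) / k := by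
          rw [lt_div_iff₀ hk0]; linarith only [hsumA2]
        have h3 : (k * s - k * j - j + #U) / (k : ℝ) =
            (s : ℝ) - j - j / k + #U / k := by field_simp
        have h4 : (k : ℝ) * ((s : ℝ) - j) * ((1 - 1 / (k : ℝ)) / k) =
            (s : ℝ) - j - ((s : ℝ) - j) / k := by field_simp
        have h5 : ((s : ℝ) - 2 * j + #U) * (1 / (k : ℝ)) =
            ((s : ℝ) - j) / k - j / k + #U / k := by field_simp; ring
        rw [h4, h5]
        rw [h3] at h2
        linarith only [h2])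
    rw [← CJ_shift k (by omega) A2 x, Finset.sum_const, Finset.card_range, nsmul_eq_mul,
      hA2c, hch] at hcb
    have hN : ((s - 2 * j + #U : ℕ) : ℝ) = s - 2 * j + #U := by
      rw [Nat.cast_add, Nat.cast_sub (by omega)]; push_cast; ring
    rw [hN, hcsj] at hcb
    have hcnt2 : (cnt A2 x k 1 : ℝ) ≤ ((s : ℝ) - 2 * j + #U - 1) * E' := by
      have h1 : 0 < (s : ℝ) - j := by linarith only [hjK, hs160, hK1]
      apply le_of_mul_le_mul_left _ h1
      linarith only [hcb]
    -- the light sets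
    have hWA : A \ U ⊆ A := sdiff_subset
    have hW' : A2 ⊆ A \ U := by
      rw [hA2, hT]
      apply Finset.sdiff_subset_sdiff (Subset.refl _)
      exact Finset.subset_union_left.trans Finset.subset_union_left
    have hlc := hLC V k (by omega) A U (A \ U) A2 x hUA hWA disjoint_sdiff hW'
    rw [hA2c, hch, hA] at hlc
    have hWc : #(A \ U) = k * s - #U := by rw [Finset.card_sdiff_of_subset hUA, hA]
    have hexc : exc k x (A \ U) ≤ K := by
      refine le_trans ?_ hK
      unfold exc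
      exact Finset.sum_le_sum_of_subset_of_nonneg hWA fun i _ _ => le_max_right _ _
    have hCW : (1 - j / ((s : ℝ) - 1)) * E ≤ ((#(A \ U)).choose (k - 1) : ℝ) := by
      refine hBEj.trans ?_
      have h1 : k * s - 1 - j ≤ #(A \ U) := by rw [hWc]; omega
      exact_mod_cast Nat.choose_le_choose (k - 1) h1
    have hWs : ((k : ℝ) - 1) * s ≤ (#(A \ U) : ℝ) := by
      have h1 : k * s ≤ #(A \ U) + s := by rw [hWc]; omega
      have h2 : (k : ℝ) * s ≤ (#(A \ U) : ℝ) + s := by exact_mod_cast h1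
      linarith only [h2]
    have hterm : ∀ i ∈ U, (1 - 3 * (k * K / s)) * E ≤
        ((#(A \ U)).choose (k - 1) : ℝ) - cnt (A \ U) x (k - 1) (1 - x i) := by
      intro i hi
      have h1 := hMK V k hk (A \ U) x K (x i) hexc ((hU i).1 hi).2
      set c : ℝ := (cnt (A \ U) x (k - 1) (1 - x i) : ℝ) with hc
      set M : ℝ := ((#(A \ U)).choose (k - 1) : ℝ) with hM
      have hc0 : 0 ≤ c := Nat.cast_nonneg _
      have hM0 : 0 ≤ M := Nat.cast_nonneg _
      have h2 : c * (((k : ℝ) - 1) * s) ≤ k * K * (k - 1) * M :=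
        (mul_le_mul_of_nonneg_left hWs hc0).trans h1
      have h3 : c * s ≤ k * K * M := by
        have h4 : 0 < (k : ℝ) - 1 := by linarith only [hk']
        apply le_of_mul_le_mul_left _ h4
        linarith only [h2]
      have h4 : c ≤ k * K / s * M := by
        rw [div_mul_eq_mul_div, le_div_iff₀ hs0]
        exact h3
      have h5 : (1 - k * K / s) * M ≤ M - c := by linarith only [h4]
      have h6 : (1 - k * K / s) * ((1 - j / ((s : ℝ) - 1)) * E) ≤ (1 - k * K / s) * M :=
        mul_le_mul_of_nonneg_left hCW (by linarith only [hKs1])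
      have h7 : (1 - 3 * (k * K / s)) ≤ (1 - k * K / s) * (1 - j / ((s : ℝ) - 1)) := by
        exact CJ_n3 (hfr.trans hKs2) hKs hfr0
      have h8 : (1 - 3 * (k * K / s)) * E ≤
          (1 - k * K / s) * (1 - j / ((s : ℝ) - 1)) * E := mul_le_mul_of_nonneg_right h7 hE0
      linarith only [h5, h6, h8]
    have hsumterm : (#U : ℝ) * ((1 - 3 * (k * K / s)) * E) ≤
        ∑ i ∈ U, (((#(A \ U)).choose (k - 1) : ℝ) - cnt (A \ U) x (k - 1) (1 - x i)) := by
      rw [← nsmul_eq_mul, ← Finset.sum_const]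
      exact Finset.sum_le_sum hterm
    have hlast : ((j : ℝ) - #U + 1) * ((1 - 3 * (k * K / s)) * E) ≤
        ((s : ℝ) - j) * E' - cnt A2 x k 1 := by
      have h1 : ((j : ℝ) - #U + 1) * E' ≤ ((s : ℝ) - j) * E' - cnt A2 x k 1 := by linarith only [hcnt2]
      refine le_trans ?_ h1
      apply mul_le_mul_of_nonneg_left _ (by linarith only [hUj])
      refine le_trans ?_ hE'low
      apply mul_le_mul_of_nonneg_right _ hE0
      linarith only [hKs]
    linarith only [hlc, hsumterm, hlast]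

end Pool.Agent.Helper12.OT
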